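import Pool.Agent.H67.AG.T4

/-!
ABSOLUTE GAP: the row CL, the classes of positive measure of an equivalence relation.
-/

set_option autoImplicit false

open MeasureTheory ProbabilityTheory Filter Topology Finset
open scoped ENNReal

namespace Pool.Agent.H69.AG

open Pool.Agent.H67.AG

section

variable {X : Type} [MeasurableSpace X] {μ : Measure X} [IsProbabilityMeasure μ]
  {R : Set (X × X)}

/-- the section of `R` -/
def Sec (R : Set (X × X)) (x : X) : Set X := {x' | (x, x') ∈ R}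

omit [IsProbabilityMeasure μ] in
lemma sec_meas (hR : MeasurableSet R) (x : X) : MeasurableSet (Sec R x) :=
  measurable_prodMk_left hR

lemma diff_meas (hR : MeasurableSet R) :
    Measurable fun q : X × X => μ (Sec R q.1 \ Sec R q.2) := by
  have h1 : MeasurableSet {p : (X × X) × X | (p.1.1, p.2) ∈ R ∧ (p.1.2, p.2) ∉ R} := by
    have e1 : Measurable fun p : (X × X) × X => (p.1.1, p.2) :=
      (measurable_fst.comp measurable_fst).prodMk measurable_snd
    have e2 : Measurable fun p : (X × X) × X => (p.1.2, p.2) :=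
      (measurable_snd.comp measurable_fst).prodMk measurable_snd
    exact (e1 hR).inter (e2 hR).compl
  exact measurable_measure_prodMk_left h1

lemma inter_meas (hR : MeasurableSet R) :
    Measurable fun q : X × X => μ (Sec R q.1 ∩ Sec R q.2) := by
  have h1 : MeasurableSet {p : (X × X) × X | (p.1.1, p.2) ∈ R ∧ (p.1.2, p.2) ∈ R} := by
    have e1 : Measurable fun p : (X × X) × X => (p.1.1, p.2) :=
      (measurable_fst.comp measurable_fst).prodMk measurable_snd
    have e2 : Measurable fun p : (X × X) × X => (p.1.2, p.2) :=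
      (measurable_snd.comp measurable_fst).prodMk measurable_snd
    exact (e1 hR).inter (e2 hR)
  exact measurable_measure_prodMk_left h1

lemma sec_real_meas (hR : MeasurableSet R) : Measurable fun x : X => μ.real (Sec R x) :=
  (measurable_measure_prodMk_left hR).ennreal_toReal

lemma eqv_meas (hR : MeasurableSet R) :
    MeasurableSet {q : X × X | Sec R q.1 =ᵐ[μ] Sec R q.2} := by
  have h1 : {q : X × X | Sec R q.1 =ᵐ[μ] Sec R q.2} =
      {q | μ (Sec R q.1 \ Sec R q.2) = 0} ∩ {q | μ (Sec R q.2 \ Sec R q.1) = 0} := by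
    ext q
    exact ae_eq_set
  rw [h1]
  exact (diff_meas hR (measurableSet_singleton 0)).inter
    (((diff_meas hR).comp measurable_swap) (measurableSet_singleton 0))

/-- almost every pair in `R` has equal sections -/
lemma ae_eqv (hR : MeasurableSet R)
    (hsym : ∀ᵐ q ∂(μ.prod μ), q ∈ R → q.swap ∈ R)
    (htr : ∀ᵐ q ∂(μ.prod (μ.prod μ)),
      (q.1, q.2.1) ∈ R → (q.2.1, q.2.2) ∈ R → (q.1, q.2.2) ∈ R) :
    ∀ᵐ q ∂(μ.prod μ), q ∈ R → Sec R q.1 =ᵐ[μ] Sec R q.2 := by
  have h1 : ∀ᵐ q ∂(μ.prod μ), q ∈ R → μ (Sec R q.2 \ Sec R q.1) = 0 := by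
    have hm : MeasurableSet {q : X × X | q ∈ R → μ (Sec R q.2 \ Sec R q.1) = 0} := by
      have e : {q : X × X | q ∈ R → μ (Sec R q.2 \ Sec R q.1) = 0} =
          Rᶜ ∪ {q | μ (Sec R q.2 \ Sec R q.1) = 0} := by
        ext q
        exact imp_iff_not_or
      rw [e]
      exact hR.compl.union (((diff_meas hR).comp measurable_swap) (measurableSet_singleton 0))
    rw [Measure.ae_prod_iff_ae_ae hm]
    filter_upwards [Measure.ae_ae_of_ae_prod htr] with x hx
    filter_upwards [Measure.ae_ae_of_ae_prod hx] with y hy hxy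
    change μ (Sec R y \ Sec R x) = 0
    refine measure_mono_null (t := {z | ¬ ((x, y) ∈ R → (y, z) ∈ R → (x, z) ∈ R)}) ?_ hy
    rintro z ⟨hz1, hz2⟩ h
    exact hz2 (h hxy hz1)
  have h2 : ∀ᵐ q ∂(μ.prod μ), q.swap ∈ R → μ (Sec R q.1 \ Sec R q.2) = 0 :=
    Measure.measurePreserving_swap.quasiMeasurePreserving.ae h1
  filter_upwards [h1, h2, hsym] with q h3 h4 h5 hq
  exact ae_eq_set.2 ⟨h4 (h5 hq), h3 hq⟩

/-- almost all pairs whose sections meet are in `R` -/
lemma ae_mem (hR : MeasurableSet R)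
    (hsym : ∀ᵐ q ∂(μ.prod μ), q ∈ R → q.swap ∈ R)
    (htr : ∀ᵐ q ∂(μ.prod (μ.prod μ)),
      (q.1, q.2.1) ∈ R → (q.2.1, q.2.2) ∈ R → (q.1, q.2.2) ∈ R) :
    ∀ᵐ q ∂(μ.prod μ), μ (Sec R q.1 ∩ Sec R q.2) ≠ 0 → q ∈ R := by
  have hm : MeasurableSet {q : X × X | μ (Sec R q.1 ∩ Sec R q.2) ≠ 0 → q ∈ R} := by
    have e : {q : X × X | μ (Sec R q.1 ∩ Sec R q.2) ≠ 0 → q ∈ R} =
        {q | μ (Sec R q.1 ∩ Sec R q.2) = 0} ∪ R := by
      ext q
      change (¬ _ → _) ↔ (_ ∨ _)
      exact or_iff_not_imp_left.symm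
    rw [e]
    exact (inter_meas hR (measurableSet_singleton 0)).union hR
  have h0 : ∀ᵐ q ∂(μ.prod (μ.prod μ)),
      (q.1, q.2.2) ∈ R → (q.2.2, q.2.1) ∈ R → (q.1, q.2.1) ∈ R := by
    have hmp : MeasurePreserving (Prod.map id Prod.swap : X × (X × X) → X × (X × X))
        (μ.prod (μ.prod μ)) (μ.prod (μ.prod μ)) :=
      (MeasurePreserving.id μ).prod Measure.measurePreserving_swap
    exact hmp.quasiMeasurePreserving.ae htr
  rw [Measure.ae_prod_iff_ae_ae hm]
  filter_upwards [Measure.ae_ae_of_ae_prod h0] with x hx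
  filter_upwards [Measure.ae_ae_of_ae_prod hx, Measure.ae_ae_of_ae_prod hsym] with y hy hs hxy
  by_contra hn
  apply hxy
  have h1 : ∀ᵐ z ∂μ, ¬ z ∈ Sec R x ∩ Sec R y := by
    filter_upwards [hy, hs] with z h2 h3 h4
    exact hn (h2 h4.1 (h3 h4.2))
  exact measure_eq_zero_iff_ae_notMem.2 h1

end

theorem pf_CL : T_CL := by
  classical
  intro X mX sX μ hμ R c₀ hR hc hsym htr
  have hA := ae_eqv hR hsym htr
  have hB := ae_mem hR hsym htr
  have hEm := eqv_meas (μ := μ) hR
  -- the classes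
  let cl : X → Set X := fun x => {y | Sec R x =ᵐ[μ] Sec R y}
  have hclm : ∀ x, MeasurableSet (cl x) := fun x => measurable_prodMk_left hEm
  have hcl : ∀ x y, y ∈ cl x → cl y = cl x := by
    intro x y hxy
    ext z
    exact ⟨fun h => (show Sec R x =ᵐ[μ] Sec R y from hxy).trans h,
      fun h => (show Sec R x =ᵐ[μ] Sec R y from hxy).symm.trans h⟩
  have hself : ∀ x, x ∈ cl x := fun x => ae_eq_rfl
  have hreal : ∀ x y, y ∈ cl x → μ.real (Sec R y) = μ.real (Sec R x) := fun x y hxy =>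
    (measureReal_congr (show Sec R x =ᵐ[μ] Sec R y from hxy)).symm
  let G : Set X := {x | c₀ ≤ μ.real (Sec R x) ∧ c₀ ≤ μ.real (cl x)}
  have hG : ∀ᵐ x ∂μ, c₀ ≤ μ.real (Sec R x) → x ∈ G := by
    filter_upwards [Measure.ae_ae_of_ae_prod hA] with x hx h1
    refine ⟨h1, h1.trans ?_⟩
    have h2 : Sec R x ≤ᵐ[μ] cl x := by
      filter_upwards [hx] with y hy hxy
      exact hy hxy
    exact ENNReal.toReal_mono (measure_ne_top μ _) (measure_mono_ae h2)
  -- finitely many classes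
  let I : Type := {C : Set X // ∃ x ∈ G, cl x = C}
  have hIm : ∀ i : I, MeasurableSet i.1 := by
    rintro ⟨C, x, -, rfl⟩
    exact hclm x
  have hIc : ∀ i : I, c₀ ≤ μ.real i.1 := by
    rintro ⟨C, x, hx, rfl⟩
    exact hx.2
  have hId : Pairwise (Function.onFun Disjoint fun i : I => i.1) := by
    rintro ⟨C, x, hx, rfl⟩ ⟨C', y, hy, rfl⟩ hne
    refine Set.disjoint_left.2 fun z hz hz' => hne ?_
    apply Subtype.ext
    change cl x = cl y
    rw [← hcl x z hz, hcl y z hz']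
  have hfin : Set.Finite {i : I | ENNReal.ofReal c₀ ≤ μ i.1} :=
    Measure.finite_const_le_meas_of_disjoint_iUnion μ (ENNReal.ofReal_pos.2 hc) hIm hId
      (measure_ne_top μ _)
  have hfin' : Finite I := by
    have h1 : {i : I | ENNReal.ofReal c₀ ≤ μ i.1} = Set.univ := by
      refine Set.eq_univ_of_forall fun i => ?_
      change ENNReal.ofReal c₀ ≤ μ i.1
      rw [ENNReal.ofReal_le_iff_le_toReal (measure_ne_top μ _)]
      exact hIc i
    rw [h1] at hfin
    exact Set.finite_univ_iff.1 hfin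
  obtain ⟨r, ⟨e⟩⟩ := Finite.exists_equiv_fin I
  refine ⟨r, fun a => (e.symm a).1, fun a => ⟨hIm _, hIc _⟩, fun a b hab => ?_, ?_⟩
  · exact hId fun h => hab (e.symm.injective h)
  · have hG1 : ∀ᵐ q ∂(μ.prod μ), c₀ ≤ μ.real (Sec R q.1) → q.1 ∈ G :=
      Measure.quasiMeasurePreserving_fst.ae hG
    filter_upwards [hA, hB, hG1] with q h1 h2 h3
    constructor
    · rintro ⟨hq, h4, -⟩
      have h5 : q.1 ∈ G := h3 h4
      refine ⟨e ⟨cl q.1, q.1, h5, rfl⟩, ?_⟩
      rw [Equiv.symm_apply_apply]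
      exact ⟨hself _, h1 hq⟩
    · rintro ⟨a, h4, h5⟩
      obtain ⟨⟨C, x, hx, rfl⟩, h6⟩ : ∃ i, e.symm a = i := ⟨_, rfl⟩
      rw [h6] at h4 h5
      change q.1 ∈ cl x at h4
      change q.2 ∈ cl x at h5
      have h7 : Sec R q.1 =ᵐ[μ] Sec R q.2 :=
        (show Sec R x =ᵐ[μ] Sec R q.1 from h4).symm.trans h5
      have h8 : c₀ ≤ μ.real (Sec R q.1) := by rw [hreal x _ h4]; exact hx.1
      have h9 : c₀ ≤ μ.real (Sec R q.2) := by rw [hreal x _ h5]; exact hx.1
      refine ⟨h2 ?_, h8, h9⟩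
      have h10 : μ (Sec R q.1 ∩ Sec R q.2) = μ (Sec R q.1) := by
        refine measure_congr ?_
        have := (ae_eq_refl (Sec R q.1)).inter h7.symm
        rwa [Set.inter_self] at this
      rw [h10]
      intro h0
      rw [Measure.real, h0] at h8
      simp only [ENNReal.toReal_zero] at h8
      linarith

end Pool.Agent.H69.AG
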