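import Pool.Agent.H39.AG.K3C

/-!
# Row K1C of `allg_modules` (MP_7ecdd4_nt): the triples of class 1
-/

set_option autoImplicit false

open Pool.Agent.H38.RB Pool.Agent.H38.PS Pool.Agent.H82.RD Pool.Agent.H38.AB Pool.Agent.H38.AG

namespace Pool.Agent.H69.AG

open Pool.Agent.H96.RD (factorization_le_log natAbs_sq_modEq not_dvd_both primeFactors_subset)
open Pool.Agent.H39.AG (ncard_biUnion from_large prod_fact natAbs_le_ht pow_dvd_of)

open Classical in
/-- the pairs of supports -/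
noncomputable def FK (X ρ c : ℝ) (i q : ℕ) : Finset (Finset ℕ × Finset ℕ) :=
  ((Finset.range (⌊X⌋₊ + 1)).powerset ×ˢ (Finset.range (⌊X⌋₊ + 1)).powerset).filter fun f =>
    Disjoint f.1 f.2 ∧ (∀ p ∈ f.1 ∪ f.2, p.Prime ∧ p ≠ q ∧ (p : ℝ) ≤ X) ∧
    (pd (f.1 ∪ f.2) : ℝ) ≤ X ^ (2 / 3 + c) ∧ X ^ (3 / 5 : ℝ) ≤ (pd (f.1 ∪ f.2) : ℝ) ∧
    (pd ((f.1 ∪ f.2).filter fun p => (p : ℝ) ≤ Real.log X ^ 30) : ℝ) ≤ X ^ (1 / 100 : ℝ) ∧
    ((f.1 ∪ f.2).card : ℝ) * Real.log (Real.log X) ≤ ρ * Real.log X ∧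
    RP q ⌈((2 : ℝ) ^ i) ^ (3 / 4 : ℝ)⌉₊ (4 * 2 ^ i) f.1 f.2

theorem pd_mono {S T : Finset ℕ} (h : S ⊆ T) (hT : ∀ p ∈ T, p.Prime) : pd S ≤ pd T := by
  unfold pd
  exact Finset.prod_le_prod_of_subset_of_one_le' h fun p hp _ => (hT p hp).one_lt.le

theorem pd_union {S T : Finset ℕ} (h : Disjoint S T) : pd (S ∪ T) = pd S * pd T := by
  unfold pd
  exact Finset.prod_union h

/-- the supports of a triple of class 1 -/
theorem supports {X ρ c : ℝ} (hX : 2 ≤ X) (hρ : 0 < ρ) (hρ2 : ρ ≤ c / 16) (hc : c ≤ 1 / 100)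
    {x : Fin 3 → ℤ} (hR : x ∈ Rd X ρ) {i : ℕ} (hi1 : (2 : ℝ) ^ i ≤ Real.log (ht x))
    (hi2 : Real.log (ht x) ≤ 2 * 2 ^ i) {a b d : Fin 3} (hab : a ≠ b) (had : a ≠ d) (hbd : b ≠ d)
    {q : ℕ} (hqa : q ∈ (x a).natAbs.primeFactors)
    (hq : Real.log (ht x) ^ (3 / 4 : ℝ) ≤ ((x a).natAbs.factorization q : ℝ)) :
    ((x b).natAbs.primeFactors, (x d).natAbs.primeFactors) ∈ FK X ρ c i q := by
  classical
  obtain ⟨hA, hpdX, hlow, hsm, hcard⟩ := hR
  have hX0 : (0 : ℝ) < X := by linarith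
  have hX1 : (1 : ℝ) ≤ X := by linarith
  have hne : ∀ j, (x j).natAbs ≠ 0 := fun j => Int.natAbs_ne_zero.2 (hA.1 j)
  set B := (x b).natAbs.primeFactors with hB
  set C := (x d).natAbs.primeFactors with hC
  have hqp := Nat.prime_of_mem_primeFactors hqa
  have hprp : ∀ p ∈ (pr x).primeFactors, p.Prime := fun p hp => Nat.prime_of_mem_primeFactors hp
  have hBC : B ∪ C ⊆ (pr x).primeFactors :=
    Finset.union_subset (primeFactors_subset hA b) (primeFactors_subset hA d)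
  have hdis : Disjoint B C := by
    rw [Finset.disjoint_left]
    intro p h1 h2
    exact not_dvd_both hA hbd (Nat.prime_of_mem_primeFactors h1) (Nat.dvd_of_mem_primeFactors h1)
      (Nat.dvd_of_mem_primeFactors h2)
  have hdisA : Disjoint (x a).natAbs.primeFactors (B ∪ C) := by
    rw [Finset.disjoint_left]
    intro p h1 h2
    rcases Finset.mem_union.1 h2 with h3 | h3
    · exact not_dvd_both hA hab (Nat.prime_of_mem_primeFactors h1)
        (Nat.dvd_of_mem_primeFactors h1) (Nat.dvd_of_mem_primeFactors h3)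
    · exact not_dvd_both hA had (Nat.prime_of_mem_primeFactors h1)
        (Nat.dvd_of_mem_primeFactors h1) (Nat.dvd_of_mem_primeFactors h3)
  have hpX : ∀ p ∈ (pr x).primeFactors, (p : ℝ) ≤ X := by
    intro p hp
    have h1 : p ≤ pd (pr x).primeFactors := by
      refine Nat.le_of_dvd (Pool.Agent.H18.AB.pd_pf_pos _) ?_
      exact Finset.dvd_prod_of_mem (fun p : ℕ => p) hp
    have h2 : (p : ℝ) ≤ pd (pr x).primeFactors := by exact_mod_cast h1
    exact h2.trans hpdX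
  have hz : ∀ p, (x b).natAbs.factorization p = 0 ∨ (x d).natAbs.factorization p = 0 := by
    intro p
    by_contra hcon
    rw [not_or] at hcon
    have h1 : p ∈ (x b).natAbs.primeFactors := by
      rw [← Nat.support_factorization]
      exact Finsupp.mem_support_iff.2 hcon.1
    have h2 : p ∈ (x d).natAbs.primeFactors := by
      rw [← Nat.support_factorization]
      exact Finsupp.mem_support_iff.2 hcon.2
    exact Finset.disjoint_left.1 hdis h1 h2
  have hL0 : 0 ≤ Real.log (ht x) := (by positivity : (0 : ℝ) ≤ 2 ^ i).trans hi1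
  have hfac : ∀ (j : Fin 3) (p : ℕ), p.Prime → (x j).natAbs.factorization p ≤ 4 * 2 ^ i := by
    intro j p hp
    have h1 := factorization_le_log (hne j) (natAbs_le_ht x j) hp
    have h2 : ((x j).natAbs.factorization p : ℝ) ≤ 4 * 2 ^ i := by linarith
    exact_mod_cast h2
  unfold FK
  refine Finset.mem_filter.2 ⟨Finset.mem_product.2 ⟨Finset.mem_powerset.2 ?_,
    Finset.mem_powerset.2 ?_⟩, hdis, ?_, ?_, ?_, ?_, ?_, ?_⟩
  · intro p hp
    refine Finset.mem_range.2 (Nat.lt_succ_of_le (Nat.le_floor ?_))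
    exact hpX p (hBC (Finset.mem_union_left _ hp))
  · intro p hp
    refine Finset.mem_range.2 (Nat.lt_succ_of_le (Nat.le_floor ?_))
    exact hpX p (hBC (Finset.mem_union_right _ hp))
  · intro p hp
    refine ⟨hprp p (hBC hp), ?_, hpX p (hBC hp)⟩
    rintro rfl
    exact Finset.disjoint_left.1 hdisA hqa hp
  · have h1 : pd ((x a).natAbs.primeFactors ∪ (B ∪ C)) ≤ pd (pr x).primeFactors :=
      pd_mono (Finset.union_subset (primeFactors_subset hA a) hBC) hprp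
    rw [pd_union hdisA] at h1
    have h2 : ((pd (x a).natAbs.primeFactors : ℕ) : ℝ) * (pd (B ∪ C) : ℝ) ≤ X := by
      have h3 : ((pd (x a).natAbs.primeFactors * pd (B ∪ C) : ℕ) : ℝ) ≤
          (pd (pr x).primeFactors : ℝ) := by exact_mod_cast h1
      push_cast at h3
      exact h3.trans hpdX
    have h4 : X ^ (1 / 3 - ρ) * (pd (B ∪ C) : ℝ) ≤ X ^ (1 / 3 - ρ) * X ^ (2 / 3 + c) := by
      calc X ^ (1 / 3 - ρ) * (pd (B ∪ C) : ℝ) ≤
            ((pd (x a).natAbs.primeFactors : ℕ) : ℝ) * (pd (B ∪ C) : ℝ) :=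
            mul_le_mul_of_nonneg_right (hlow a) (Nat.cast_nonneg _)
        _ ≤ X := h2
        _ = X ^ (1 : ℝ) := (Real.rpow_one X).symm
        _ ≤ X ^ (1 / 3 - ρ + (2 / 3 + c)) :=
            Real.rpow_le_rpow_of_exponent_le hX1 (by linarith)
        _ = _ := Real.rpow_add hX0 _ _
    exact le_of_mul_le_mul_left h4 (Real.rpow_pos_of_pos hX0 _)
  · rw [pd_union hdis]
    push_cast
    calc X ^ (3 / 5 : ℝ) ≤ X ^ (1 / 3 - ρ + (1 / 3 - ρ)) :=
          Real.rpow_le_rpow_of_exponent_le hX1 (by linarith)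
      _ = X ^ (1 / 3 - ρ) * X ^ (1 / 3 - ρ) := Real.rpow_add hX0 _ _
      _ ≤ _ := mul_le_mul (hlow b) (hlow d) (by positivity) (Nat.cast_nonneg _)
  · have h1 : pd ((B ∪ C).filter fun p => (p : ℝ) ≤ Real.log X ^ 30) ≤
        pd ((pr x).primeFactors.filter fun p => (p : ℝ) ≤ Real.log X ^ 30) :=
      pd_mono (Finset.filter_subset_filter _ hBC) fun p hp => hprp p (Finset.mem_filter.1 hp).1
    have h2 : (pd ((B ∪ C).filter fun p => (p : ℝ) ≤ Real.log X ^ 30) : ℝ) ≤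
        (pd ((pr x).primeFactors.filter fun p => (p : ℝ) ≤ Real.log X ^ 30) : ℝ) := by
      exact_mod_cast h1
    exact (h2.trans hsm).trans (Real.rpow_le_rpow_of_exponent_le hX1 (by linarith))
  · have h1 : ((B ∪ C).card : ℝ) ≤ ((pr x).primeFactors.card : ℝ) := by
      exact_mod_cast Finset.card_le_card hBC
    rcases le_or_gt 0 (Real.log (Real.log X)) with h2 | h2
    · exact (mul_le_mul_of_nonneg_right h1 h2).trans hcard
    · have h3 : ((B ∪ C).card : ℝ) * Real.log (Real.log X) ≤ 0 :=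
        mul_nonpos_of_nonneg_of_nonpos (Nat.cast_nonneg _) h2.le
      exact h3.trans (mul_nonneg hρ.le (Real.log_nonneg hX1))
  · refine ⟨fun p => (x b).natAbs.factorization p + (x d).natAbs.factorization p, ?_, ?_⟩
    · intro p hp
      have hpp := hprp p (hBC hp)
      have h1 := hfac b p hpp
      have h2 := hfac d p hpp
      have h3 := hz p
      refine ⟨?_, ?_⟩
      · rcases Finset.mem_union.1 hp with h4 | h4
        · rw [hB, ← Nat.support_factorization] at h4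
          have h5 := Finsupp.mem_support_iff.1 h4
          simp only
          omega
        · rw [hC, ← Nat.support_factorization] at h4
          have h5 := Finsupp.mem_support_iff.1 h4
          simp only
          omega
      · simp only
        omega
    · have e1 : ∏ p ∈ B, p ^ ((x b).natAbs.factorization p + (x d).natAbs.factorization p) =
          (x b).natAbs := by
        rw [← prod_fact (hne b) (P := B) subset_rfl]
        refine Finset.prod_congr rfl fun p hp => ?_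
        rw [prod_fact (hne b) (P := B) subset_rfl]
        have h4 := hz p
        rw [hB, ← Nat.support_factorization] at hp
        have h5 := Finsupp.mem_support_iff.1 hp
        congr 1
        omega
      have e2 : ∏ p ∈ C, p ^ ((x b).natAbs.factorization p + (x d).natAbs.factorization p) =
          (x d).natAbs := by
        rw [← prod_fact (hne d) (P := C) subset_rfl]
        refine Finset.prod_congr rfl fun p hp => ?_
        rw [prod_fact (hne d) (P := C) subset_rfl]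
        have h4 := hz p
        rw [hC, ← Nat.support_factorization] at hp
        have h5 := Finsupp.mem_support_iff.1 hp
        congr 1
        omega
      show (∏ p ∈ B, p ^ ((x b).natAbs.factorization p + (x d).natAbs.factorization p)) ^ 2 ≡
        (∏ p ∈ C, p ^ ((x b).natAbs.factorization p + (x d).natAbs.factorization p)) ^ 2 [MOD _]
      rw [e1, e2]
      refine natAbs_sq_modEq (Pool.Agent.H18.AB.sum3 hA.2.2 hab had hbd) (pow_dvd_of ?_)
      refine Nat.ceil_le.2 ?_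
      exact (Real.rpow_le_rpow (by positivity) hi1 (by norm_num)).trans hq

/-- the number of the pairs of supports -/
theorem FK_card {c K ρ₀ X₀ : ℝ} (hrc : ∀ (X ℓ : ℝ) (q e Bd : ℕ)
    (F : Finset (Finset ℕ × Finset ℕ)), X₀ ≤ X →
    K * Real.log (Real.log X) ≤ ℓ → ℓ ≤ 30 * Real.log X → q.Prime → (q : ℝ) ≤ X → 1 ≤ Bd →
    (Bd : ℝ) ≤ Real.exp (2 * ℓ) → Real.exp (ℓ / 2) ≤ (e : ℝ) →
    (∀ f ∈ F, Disjoint f.1 f.2 ∧ (∀ p ∈ f.1 ∪ f.2, p.Prime ∧ p ≠ q ∧ (p : ℝ) ≤ X) ∧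
      (pd (f.1 ∪ f.2) : ℝ) ≤ X ^ (2 / 3 + c) ∧ X ^ (3 / 5 : ℝ) ≤ (pd (f.1 ∪ f.2) : ℝ) ∧
      (pd ((f.1 ∪ f.2).filter fun p => (p : ℝ) ≤ Real.log X ^ 30) : ℝ) ≤ X ^ (1 / 100 : ℝ) ∧
      ((f.1 ∪ f.2).card : ℝ) * Real.log (Real.log X) ≤ ρ₀ * Real.log X ∧ RP q e Bd f.1 f.2) →
    (F.card : ℝ) ≤ X ^ (2 / 3 - c)) {X ρ : ℝ} (hX : X₀ ≤ X) (hX1 : 1 ≤ X) (hρ : ρ ≤ ρ₀)
    {i q : ℕ} (hi : 2 ≤ i) (h1 : K * Real.log (Real.log X) ≤ (i + 1) * Real.log 2)
    (h2 : (i + 1) * Real.log 2 ≤ 30 * Real.log X) (hq : q.Prime) (hqX : (q : ℝ) ≤ X) :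
    ((FK X ρ c i q).card : ℝ) ≤ X ^ (2 / 3 - c) := by
  classical
  have hlog2 : 0 < Real.log 2 := Real.log_pos (by norm_num)
  have hir : (2 : ℝ) ≤ i := by exact_mod_cast hi
  refine hrc X ((i + 1) * Real.log 2) q ⌈((2 : ℝ) ^ i) ^ (3 / 4 : ℝ)⌉₊ (4 * 2 ^ i) _ hX h1 h2 hq
    hqX (Nat.mul_pos (by norm_num) (by positivity)) ?_ ?_ ?_
  · have e1 : Real.exp (2 * ((i + 1) * Real.log 2)) = (2 : ℝ) ^ (2 * (i + 1)) := by
      have e2 : 2 * (((i : ℝ) + 1) * Real.log 2) = ((2 * (i + 1) : ℕ) : ℝ) * Real.log 2 := by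
        push_cast
        ring
      rw [e2, Real.exp_nat_mul, Real.exp_log (by norm_num)]
    rw [e1]
    push_cast
    have e3 : (2 : ℝ) ^ (2 * (i + 1)) = 4 * 2 ^ i * 2 ^ i := by
      rw [mul_add, pow_add, two_mul, pow_add]
      ring
    rw [e3]
    have e4 : (1 : ℝ) ≤ 2 ^ i := one_le_pow₀ (by norm_num)
    nlinarith
  · refine le_trans ?_ (Nat.le_ceil _)
    rw [Real.rpow_def_of_pos (by positivity), Real.log_pow]
    refine Real.exp_le_exp.2 ?_
    nlinarith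
  · intro f hf
    unfold FK at hf
    obtain ⟨-, h3, h4, h5, h6, h7, h8, h9⟩ := Finset.mem_filter.1 hf
    refine ⟨h3, h4, h5, h6, h7, h8.trans ?_, h9⟩
    exact mul_le_mul_of_nonneg_right hρ (Real.log_nonneg hX1)

theorem pf_K1C (hRC : T_RC) (hTHB : T_THB) (hQR : T_QR) (_hCOME : T_COME) (hTFI : T_TFI) :
    T_K1C := by
  classical
  obtain ⟨c, K, ρ₀, X₀, hc, hc1, hK, hρ₀, hX₀, hrc⟩ := hRC
  obtain ⟨X₁, hX₁, hthb⟩ := hTHB
  set ρ : ℝ := min ρ₀ (c / 16) with hρdef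
  have hρ0 : 0 < ρ := lt_min hρ₀ (by positivity)
  have hρ1 : ρ ≤ ρ₀ := min_le_left _ _
  have hρc : ρ ≤ c / 16 := min_le_right _ _
  refine ⟨c, K, ρ, hc, hc1, hK, hρ0, fun κ hκ => ?_⟩
  obtain ⟨D, hD, hqr⟩ := hQR κ hκ
  have ev1 : ∀ᶠ X : ℝ in Filter.atTop, 8 ≤ Real.log X :=
    Real.tendsto_log_atTop.eventually_ge_atTop _
  have ev2 : ∀ᶠ X : ℝ in Filter.atTop, 1 + Real.log D ≤ Real.log (Real.log X) :=
    (Real.tendsto_log_atTop.comp Real.tendsto_log_atTop).eventually_ge_atTop _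
  obtain ⟨X₂, hX₂⟩ := (ev1.and ev2).exists_forall_of_atTop
  suffices hmain : ∀ X : ℝ, max X₀ (max X₁ (max X₂ 2)) ≤ X →
      ({x | x ∈ Rd X ρ ∧ Real.log X ^ K ≤ Real.log (ht x) ∧ K1 X c κ x}.ncard : ℝ) ≤
        31 * D / ρ ^ 2 * X ^ (2 / 3 - c / 4) by
    obtain ⟨C', hC', hfin⟩ := from_large hTFI (c' := c / 4) (C := 31 * D / ρ ^ 2)
      (X₀ := max X₀ (max X₁ (max X₂ 2))) (by linarith) (by positivity)
      (fun X => {x | x ∈ Rd X ρ ∧ Real.log X ^ K ≤ Real.log (ht x) ∧ K1 X c κ x})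
      (fun X x hx => ⟨hx.1.1, hx.1.2.1⟩)
      ((le_max_right _ _).trans ((le_max_right _ _).trans (le_max_right _ _))) hmain
    exact ⟨c / 4, C', by positivity, hC', hfin⟩
  intro X hX
  have hXX0 : X₀ ≤ X := (le_max_left _ _).trans hX
  have hXX1 : X₁ ≤ X := ((le_max_left _ _).trans (le_max_right _ _)).trans hX
  have hXX2 : X₂ ≤ X :=
    ((le_max_left _ _).trans ((le_max_right _ _).trans (le_max_right _ _))).trans hX
  have hX2 : (2 : ℝ) ≤ X :=
    ((le_max_right _ _).trans ((le_max_right _ _).trans (le_max_right _ _))).trans hX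
  obtain ⟨hl8, hev2⟩ := hX₂ X hXX2
  have hX0 : (0 : ℝ) < X := by linarith
  have hX1 : (1 : ℝ) ≤ X := by linarith
  have hlogD : 0 ≤ Real.log D := Real.log_nonneg hD
  have hll : 1 ≤ Real.log (Real.log X) := by linarith
  have hlog0 : 0 < Real.log X := by linarith
  have hlog2 : 0.69 < Real.log 2 := by linarith [Real.log_two_gt_d9]
  have hlog2' : Real.log 2 < 0.7 := by linarith [Real.log_two_lt_d9]
  have hρ16 : ρ ≤ 1 := by linarith
  set w : ℕ := ⌊ρ * Real.log X / Real.log (Real.log X)⌋₊ with hw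
  have hw1 : (w : ℝ) ≤ ρ * Real.log X / Real.log (Real.log X) := Nat.floor_le (by positivity)
  have hw2 : (w : ℝ) * Real.log (Real.log X) ≤ ρ * Real.log X := by
    rwa [le_div_iff₀ (by linarith)] at hw1
  have hw3 : (w : ℝ) ≤ Real.log X := by
    have h1 : (w : ℝ) * 1 ≤ (w : ℝ) * Real.log (Real.log X) :=
      mul_le_mul_of_nonneg_left hll (Nat.cast_nonneg _)
    have h2 : ρ * Real.log X ≤ 1 * Real.log X := mul_le_mul_of_nonneg_right hρ16 hlog0.le
    linarith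
  -- the number of solutions
  have hSol : ∀ T : Finset ℕ, (∀ p ∈ T, p.Prime) → T.card ≤ 2 * w →
      (Sol κ T).Finite ∧ ((Sol κ T).ncard : ℝ) ≤ D * X ^ (2 * ρ) := by
    intro T hT hTw
    obtain ⟨h1, h2⟩ := hqr T hT
    refine ⟨h1, h2.trans ?_⟩
    have h3 : D ^ (T.card + 1) ≤ D ^ (2 * w + 1) := pow_le_pow_right₀ hD (by omega)
    refine h3.trans ?_
    rw [pow_succ, mul_comm]
    refine mul_le_mul_of_nonneg_left ?_ (by linarith)
    have h4 : D ^ (2 * w) = Real.exp ((2 * w : ℕ) * Real.log D) := by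
      rw [Real.exp_nat_mul, Real.exp_log (by linarith)]
    rw [h4, Real.rpow_def_of_pos hX0]
    refine Real.exp_le_exp.2 ?_
    have h5 : (w : ℝ) * Real.log D ≤ (w : ℝ) * Real.log (Real.log X) :=
      mul_le_mul_of_nonneg_left (by linarith) (Nat.cast_nonneg _)
    push_cast
    nlinarith
  -- the union
  set I : Finset ℕ := (Finset.range (⌊30 * Real.log X⌋₊ + 1)).filter fun i : ℕ =>
    2 ≤ i ∧ K * Real.log (Real.log X) ≤ (i + 1) * Real.log 2 ∧
      (i + 1) * Real.log 2 ≤ 30 * Real.log X with hI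
  have hIcard : (I.card : ℝ) ≤ 31 * Real.log X := by
    have h1 : I.card ≤ ⌊30 * Real.log X⌋₊ + 1 := by
      calc I.card ≤ (Finset.range (⌊30 * Real.log X⌋₊ + 1)).card := Finset.card_filter_le _ _
        _ = _ := Finset.card_range _
    have h2 : (I.card : ℝ) ≤ (⌊30 * Real.log X⌋₊ : ℝ) + 1 := by exact_mod_cast h1
    have h3 : (⌊30 * Real.log X⌋₊ : ℝ) ≤ 30 * Real.log X := Nat.floor_le (by positivity)
    linarith
  set N : Finset ℕ := (Finset.Icc 1 ⌊X ^ (c / 2)⌋₊).filter fun n => n.primeFactors.card ≤ w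
    with hN
  have hNcard : (N.card : ℝ) ≤ X ^ (c / 2) := by
    have h1 : N.card ≤ ⌊X ^ (c / 2)⌋₊ := by
      calc N.card ≤ (Finset.Icc 1 ⌊X ^ (c / 2)⌋₊).card := Finset.card_filter_le _ _
        _ = ⌊X ^ (c / 2)⌋₊ := by simp
    have h2 : (N.card : ℝ) ≤ (⌊X ^ (c / 2)⌋₊ : ℝ) := by exact_mod_cast h1
    exact h2.trans (Nat.floor_le (by positivity))
  have hNX : ∀ n ∈ N, (n : ℝ) ≤ X := by
    intro n hn
    have h1 := (Finset.mem_Icc.1 (Finset.mem_filter.1 hn).1).2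
    have h2 : (n : ℝ) ≤ (⌊X ^ (c / 2)⌋₊ : ℝ) := by exact_mod_cast h1
    calc (n : ℝ) ≤ X ^ (c / 2) := h2.trans (Nat.floor_le (by positivity))
      _ ≤ X ^ (1 : ℝ) := Real.rpow_le_rpow_of_exponent_le hX1 (by linarith)
      _ = X := Real.rpow_one X
  set U : ℕ → ℕ → ℕ → Set (Fin 3 → ℤ) := fun i n q =>
    ⋃ f ∈ FK X ρ c i q, Sol κ (n.primeFactors ∪ (f.1 ∪ f.2)) with hU
  set B₁ : ℝ := X ^ (2 / 3 - c) * (D * X ^ (2 * ρ)) with hB₁
  have hB₁0 : 0 ≤ B₁ := by positivity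
  have hUb : ∀ i ∈ I, ∀ n ∈ N, ∀ q ∈ n.primeFactors, (U i n q).Finite ∧
      ((U i n q).ncard : ℝ) ≤ B₁ := by
    intro i hi n hn q hq
    obtain ⟨hi2, hi3, hi4⟩ := (Finset.mem_filter.1 hi).2
    have hqp := Nat.prime_of_mem_primeFactors hq
    have hn1 := (Finset.mem_Icc.1 (Finset.mem_filter.1 hn).1).1
    have hqX : (q : ℝ) ≤ X := by
      have h1 : q ≤ n := Nat.le_of_dvd (by omega) (Nat.dvd_of_mem_primeFactors hq)
      have h2 : (q : ℝ) ≤ n := by exact_mod_cast h1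
      exact h2.trans (hNX n hn)
    have hTf : ∀ f ∈ FK X ρ c i q, (∀ p ∈ n.primeFactors ∪ (f.1 ∪ f.2), p.Prime) ∧
        (n.primeFactors ∪ (f.1 ∪ f.2)).card ≤ 2 * w := by
      intro f hf
      unfold FK at hf
      obtain ⟨-, -, h4, -, -, -, h8, -⟩ := Finset.mem_filter.1 hf
      refine ⟨?_, ?_⟩
      · intro p hp
        rcases Finset.mem_union.1 hp with hp | hp
        · exact Nat.prime_of_mem_primeFactors hp
        · exact (h4 p hp).1
      · have h5 : (f.1 ∪ f.2).card ≤ w := by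
          refine Nat.le_floor ?_
          rw [le_div_iff₀ (by linarith)]
          exact h8
        have h6 := (Finset.mem_filter.1 hn).2
        have h7 := Finset.card_union_le n.primeFactors (f.1 ∪ f.2)
        omega
    have h0 := ncard_biUnion (FK X ρ c i q) (fun f => Sol κ (n.primeFactors ∪ (f.1 ∪ f.2)))
      (D * X ^ (2 * ρ)) (fun f hf => (hSol _ (hTf f hf).1 (hTf f hf).2).1)
      (fun f hf => (hSol _ (hTf f hf).1 (hTf f hf).2).2)
    exact ⟨h0.1, h0.2.trans (mul_le_mul_of_nonneg_right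
      (FK_card hrc hXX0 hX1 hρ1 hi2 hi3 hi4 hqp hqX) (by positivity))⟩
  have hUn : ∀ i ∈ I, ∀ n ∈ N, (⋃ q ∈ n.primeFactors, U i n q).Finite ∧
      ((⋃ q ∈ n.primeFactors, U i n q).ncard : ℝ) ≤ Real.log X * B₁ := by
    intro i hi n hn
    have h0 := ncard_biUnion n.primeFactors (U i n) B₁
      (fun q hq => (hUb i hi n hn q hq).1) (fun q hq => (hUb i hi n hn q hq).2)
    refine ⟨h0.1, h0.2.trans (mul_le_mul_of_nonneg_right ?_ hB₁0)⟩
    have h1 : (n.primeFactors.card : ℝ) ≤ w := by exact_mod_cast (Finset.mem_filter.1 hn).2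
    exact h1.trans hw3
  have hUi : ∀ i ∈ I, (⋃ n ∈ N, ⋃ q ∈ n.primeFactors, U i n q).Finite ∧
      ((⋃ n ∈ N, ⋃ q ∈ n.primeFactors, U i n q).ncard : ℝ) ≤
        X ^ (c / 2) * (Real.log X * B₁) := by
    intro i hi
    have h0 := ncard_biUnion N (fun n => ⋃ q ∈ n.primeFactors, U i n q) (Real.log X * B₁)
      (fun n hn => (hUn i hi n hn).1) (fun n hn => (hUn i hi n hn).2)
    exact ⟨h0.1, h0.2.trans (mul_le_mul_of_nonneg_right hNcard (by positivity))⟩
  have hall := ncard_biUnion I (fun i => ⋃ n ∈ N, ⋃ q ∈ n.primeFactors, U i n q)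
    (X ^ (c / 2) * (Real.log X * B₁)) (fun i hi => (hUi i hi).1) (fun i hi => (hUi i hi).2)
  -- inclusion
  have hsub : {x | x ∈ Rd X ρ ∧ Real.log X ^ K ≤ Real.log (ht x) ∧ K1 X c κ x} ⊆
      ⋃ i ∈ I, ⋃ n ∈ N, ⋃ q ∈ n.primeFactors, U i n q := by
    rintro x ⟨hR, hL, a, b, d, T, q, hab, had, hbd, hT, hqT, hpdT, hq, hsol⟩
    have hLX : Real.log (ht x) ≤ X ^ 20 := hthb X x hXX1 hR.1 hR.2.1
    have hA : Adm x := hR.1
    have hL8 : 8 ≤ Real.log (ht x) := by
      have h1 : Real.log X ≤ Real.log X ^ K := Real.self_le_rpow_of_one_le (by linarith) hK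
      linarith
    set L : ℝ := Real.log (ht x) with hLdef
    have hfl : 8 ≤ ⌊L⌋₊ := Nat.le_floor (by exact_mod_cast hL8)
    set i : ℕ := Nat.log 2 ⌊L⌋₊ with hi
    have hi1 : 2 ^ i ≤ ⌊L⌋₊ := Nat.pow_log_le_self 2 (by omega)
    have hi2 : ⌊L⌋₊ < 2 ^ (i + 1) := Nat.lt_pow_succ_log_self (by norm_num) _
    have hi1r : (2 : ℝ) ^ i ≤ L := by
      have h1 : ((2 : ℝ)) ^ i ≤ (⌊L⌋₊ : ℝ) := by exact_mod_cast hi1
      exact h1.trans (Nat.floor_le (by linarith))
    have hi2r : L ≤ 2 * 2 ^ i := by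
      have h1 : ((⌊L⌋₊ : ℝ)) + 1 ≤ 2 ^ (i + 1) := by exact_mod_cast hi2
      have h2 := Nat.lt_floor_add_one L
      rw [pow_succ] at h1
      linarith
    have hi3 : 2 ≤ i := by
      by_contra h1
      have h2 : i + 1 ≤ 2 := by omega
      have h3 : 2 ^ (i + 1) ≤ 2 ^ 2 := Nat.pow_le_pow_right (by norm_num) h2
      omega
    have hilog : (i : ℝ) * Real.log 2 ≤ 20 * Real.log X := by
      have h1 : Real.log ((2 : ℝ) ^ i) ≤ Real.log (X ^ 20) :=
        Real.log_le_log (by positivity) (hi1r.trans hLX)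
      rw [Real.log_pow, Real.log_pow] at h1
      exact_mod_cast h1
    have hiI : i ∈ I := by
      refine Finset.mem_filter.2 ⟨Finset.mem_range.2 (Nat.lt_succ_of_le (Nat.le_floor ?_)),
        hi3, ?_, ?_⟩
      · have h1 : (0 : ℝ) ≤ i := Nat.cast_nonneg _
        nlinarith
      · have h1 : Real.log (Real.log X ^ K) ≤ Real.log ((2 : ℝ) ^ (i + 1)) := by
          refine Real.log_le_log (Real.rpow_pos_of_pos hlog0 _) ?_
          rw [pow_succ]
          linarith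
        rw [Real.log_rpow hlog0, Real.log_pow] at h1
        push_cast at h1
        exact h1
      · linarith
    have hTA : T ⊆ (pr x).primeFactors := hT.trans (primeFactors_subset hA a)
    have hTp : ∀ p ∈ T, p.Prime := fun p hp => Nat.prime_of_mem_primeFactors (hTA hp)
    have hnpf : (pd T).primeFactors = T := by
      unfold pd
      exact Nat.primeFactors_prod hTp
    have hprw : (pr x).primeFactors.card ≤ w := by
      refine Nat.le_floor ?_
      rw [le_div_iff₀ (by linarith)]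
      exact hR.2.2.2.2
    have hnN : pd T ∈ N := by
      refine Finset.mem_filter.2 ⟨Finset.mem_Icc.2 ⟨Pool.Agent.H18.AB.pd_pos hTp,
        Nat.le_floor hpdT⟩, ?_⟩
      rw [hnpf]
      exact (Finset.card_le_card hTA).trans hprw
    refine Set.mem_biUnion (x := i) hiI ?_
    refine Set.mem_biUnion (x := pd T) hnN ?_
    refine Set.mem_biUnion (x := q) (by rw [hnpf]; exact hqT) ?_
    rw [hU]
    simp only
    rw [hnpf]
    exact Set.mem_biUnion (x := ((x b).natAbs.primeFactors, (x d).natAbs.primeFactors))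
      (supports hX2 hρ0 hρc hc1 hR hi1r hi2r hab had hbd (hT hqT) hq) hsol
  have h1 : ({x | x ∈ Rd X ρ ∧ Real.log X ^ K ≤ Real.log (ht x) ∧ K1 X c κ x}.ncard : ℝ) ≤
      ((⋃ i ∈ I, ⋃ n ∈ N, ⋃ q ∈ n.primeFactors, U i n q).ncard : ℝ) := by
    exact_mod_cast Set.ncard_le_ncard hsub hall.1
  refine (h1.trans hall.2).trans ?_
  have h2 : Real.log X ≤ X ^ ρ / ρ := Real.log_le_rpow_div hX0.le hρ0
  have h3 : 0 ≤ X ^ ρ / ρ := hlog0.le.trans h2
  calc (I.card : ℝ) * (X ^ (c / 2) * (Real.log X * B₁)) ≤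
        (31 * (X ^ ρ / ρ)) * (X ^ (c / 2) * ((X ^ ρ / ρ) * B₁)) := by
        refine mul_le_mul (hIcard.trans (by linarith)) ?_ (by positivity) (by positivity)
        exact mul_le_mul_of_nonneg_left (mul_le_mul_of_nonneg_right h2 hB₁0) (by positivity)
    _ = 31 * D / ρ ^ 2 * X ^ (2 / 3 - c / 2 + 4 * ρ) := by
        have e1 : X ^ (2 / 3 - c / 2 + 4 * ρ) =
            X ^ ρ * (X ^ (c / 2) * (X ^ ρ * (X ^ (2 / 3 - c) * X ^ (2 * ρ)))) := by
          rw [← Real.rpow_add hX0, ← Real.rpow_add hX0, ← Real.rpow_add hX0, ← Real.rpow_add hX0]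
          congr 1
          ring
        rw [e1, hB₁]
        ring
    _ ≤ 31 * D / ρ ^ 2 * X ^ (2 / 3 - c / 4) := by
        refine mul_le_mul_of_nonneg_left (Real.rpow_le_rpow_of_exponent_le hX1 ?_)
          (by positivity)
        linarith

end Pool.Agent.H69.AG
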