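import Pool.Agent.H64.AG.Defs

/-!
# Approximation of functions which are almost constant on the fibres
-/

set_option autoImplicit false

open Topology Cardinal

namespace Pool.Agent.H69.AG

open Pool.Agent.H20.SL Pool.Agent.H64.AK Pool.Agent.H60.CP Pool.Agent.H64.AG

theorem swf (hPOL : T_POL) : T_SWF := by
  intro X _ _ F hF ι l hl f hf ε hε hfib
  rcases F.eq_empty_or_nonempty with hFe | hFne
  · refine ⟨0, fun x hx => ?_⟩
    rw [hFe] at hx
    exact absurd hx (Set.notMem_empty x)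
  have hFc : IsCompact F := hF.isCompact
  let q : X → (ι → ℝ) := fun x i => l i x
  have hq : Continuous q := continuous_pi hl
  have hQc : IsCompact (q '' F) := hFc.image hq
  have hQ : CompactSpace (q '' F) := isCompact_iff_compactSpace.1 hQc
  let t : (q '' F) → Set ℝ := fun u => {c | ∀ x ∈ F, q x = u.1 → |f x - c| < ε}
  have ht : ∀ u, Convex ℝ (t u) := by
    intro u c1 h1 c2 h2 a b ha hb hab x hx hxu
    have h3 : c1 ∈ Metric.ball (f x) ε := by
      rw [Metric.mem_ball, Real.dist_eq, abs_sub_comm]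
      exact h1 x hx hxu
    have h4 : c2 ∈ Metric.ball (f x) ε := by
      rw [Metric.mem_ball, Real.dist_eq, abs_sub_comm]
      exact h2 x hx hxu
    have h5 := convex_ball (f x) ε h3 h4 ha hb hab
    rw [Metric.mem_ball, Real.dist_eq, abs_sub_comm] at h5
    exact h5
  have hloc : ∀ u : (q '' F), ∃ c : ℝ, ∀ᶠ v in 𝓝 u, c ∈ t v := by
    intro u
    obtain ⟨x0, hx0, hu⟩ := u.2
    refine ⟨f x0, ?_⟩
    have hK : IsCompact (F ∩ {x | ε ≤ |f x - f x0|}) :=
      hFc.inter_right (isClosed_le continuous_const ((hf.sub continuous_const).abs))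
    have hKc : IsClosed (q '' (F ∩ {x | ε ≤ |f x - f x0|})) := (hK.image hq).isClosed
    have hnot : u.1 ∉ q '' (F ∩ {x | ε ≤ |f x - f x0|}) := by
      rintro ⟨x, ⟨hx, hx2⟩, hxu⟩
      have h1 : q x = q x0 := hxu.trans hu.symm
      have h2 := hfib x hx x0 hx0 fun i => congrFun h1 i
      have hx3 : ε ≤ |f x - f x0| := hx2
      linarith
    have hopen : ∀ᶠ v : (q '' F) in 𝓝 u, v.1 ∉ q '' (F ∩ {x | ε ≤ |f x - f x0|}) :=
      continuous_subtype_val.continuousAt.eventually (hKc.isOpen_compl.mem_nhds hnot)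
    filter_upwards [hopen] with v hv x hx hxv
    by_contra hcon
    push Not at hcon
    exact hv ⟨x, ⟨hx, hcon⟩, hxv⟩
  obtain ⟨φ, hφ⟩ := exists_continuous_forall_mem_convex_of_local_const ht hloc
  have hFs : CompactSpace F := isCompact_iff_compactSpace.1 hFc
  let g : F → ℝ := fun x => |f x.1 - φ ⟨q x.1, x.1, x.2, rfl⟩|
  have hg : Continuous g := by
    have h1 : Continuous fun x : F => (⟨q x.1, x.1, x.2, rfl⟩ : (q '' F)) :=
      (hq.comp continuous_subtype_val).subtype_mk _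
    exact ((hf.comp continuous_subtype_val).sub (φ.continuous.comp h1)).abs
  obtain ⟨x1, hx1⟩ := hFne
  obtain ⟨m, -, hm⟩ := isCompact_univ.exists_isMaxOn (s := (Set.univ : Set F))
    ⟨⟨x1, hx1⟩, Set.mem_univ _⟩ hg.continuousOn
  have hmε : g m < ε := hφ ⟨q m.1, m.1, m.2, rfl⟩ m.1 m.2 rfl
  obtain ⟨p, hp⟩ := hPOL (q '' F) ι (fun i u => u.1 i)
    (fun i => (continuous_apply i).comp continuous_subtype_val)
    (fun u v huv => Subtype.ext (funext huv)) φ φ.continuous (ε - g m) (by linarith)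
  refine ⟨p, fun x hx => ?_⟩
  have h1 := hp ⟨q x, x, hx, rfl⟩
  have h2 : g ⟨x, hx⟩ ≤ g m := hm (Set.mem_univ _)
  have h3 : g ⟨x, hx⟩ = |f x - φ ⟨q x, x, hx, rfl⟩| := rfl
  have h4 : ev (fun i (u : (q '' F)) => u.1 i) p ⟨q x, x, hx, rfl⟩ = ev l p x := rfl
  rw [h4] at h1
  have h5 := abs_sub_le (f x) (φ ⟨q x, x, hx, rfl⟩) (ev l p x)
  rw [← h3] at h5
  linarith

end Pool.Agent.H69.AG
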