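import Pool.Agent.H67.AG.T4

/-!
ABSOLUTE GAP: the row TRI, the triangle inequality for the mismatch.
-/

set_option autoImplicit false

open MeasureTheory ProbabilityTheory Filter Topology Finset

namespace Pool.Agent.H69.AG

open Pool.Agent.H67.AG

section

variable {Ω : Type} [mΩ : MeasurableSpace Ω] {k : ℕ}

lemma dl_nonneg (y y' : Fin k → Ω → ℝ) (i : Fin k) (ω : Ω) : 0 ≤ dl y y' i ω := by
  unfold dl
  split_ifs <;> norm_num

lemma dl_le_one (y y' : Fin k → Ω → ℝ) (i : Fin k) (ω : Ω) : dl y y' i ω ≤ 1 := by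
  unfold dl
  split_ifs <;> norm_num

lemma dl_symm (y y' : Fin k → Ω → ℝ) (i : Fin k) : dl y y' i = dl y' y i := by
  funext ω
  unfold dl
  by_cases h : y i ω = y' i ω
  · rw [if_pos h, if_pos h.symm]
  · rw [if_neg h, if_neg fun h' => h h'.symm]

lemma dl_tri (y y' y'' : Fin k → Ω → ℝ) (i : Fin k) (ω : Ω) :
    dl y y'' i ω ≤ dl y y' i ω + dl y' y'' i ω := by
  unfold dl
  by_cases h : y i ω = y' i ω
  · by_cases h' : y' i ω = y'' i ω
    · rw [if_pos h, if_pos h', if_pos (h.trans h')]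
      norm_num
    · rw [if_pos h, if_neg h', if_neg (h ▸ h')]
      norm_num
  · rw [if_neg h]
    split_ifs <;> norm_num

lemma dl_meas {y y' : Fin k → Ω → ℝ} (hy : Tup y) (hy' : Tup y') (i : Fin k) :
    Measurable (dl y y' i) := by
  have h1 : MeasurableSet {ω | y i ω = y' i ω} := measurableSet_eq_fun (hy.1 i) (hy'.1 i)
  unfold dl
  exact Measurable.ite h1 measurable_const measurable_const

lemma dl_int (P : Measure Ω) [IsProbabilityMeasure P] {y y' : Fin k → Ω → ℝ} (hy : Tup y)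
    (hy' : Tup y') (i : Fin k) : Integrable (dl y y' i) P := by
  refine Integrable.of_bound (dl_meas hy hy' i).aestronglyMeasurable 1 ?_
  refine Eventually.of_forall fun ω => ?_
  rw [Real.norm_eq_abs, abs_of_nonneg (dl_nonneg y y' i ω)]
  exact dl_le_one y y' i ω

end

theorem pf_TRI : T_TRI := by
  intro Ω m mΩ P hP k y y' y'' hm hy hy' hy''
  refine ⟨?_, ?_, ?_⟩
  · have h1 : ∀ i, ∀ᵐ ω ∂P, (P[dl y y'' i | m]) ω ≤
        (P[dl y y' i | m]) ω + (P[dl y' y'' i | m]) ω := by
      intro i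
      have h2 : P[dl y y'' i | m] ≤ᵐ[P] P[dl y y' i + dl y' y'' i | m] :=
        condExp_mono (dl_int P hy hy'' i) ((dl_int P hy hy' i).add (dl_int P hy' hy'' i))
          (Eventually.of_forall fun ω => dl_tri y y' y'' i ω)
      have h3 : P[dl y y' i + dl y' y'' i | m] =ᵐ[P] P[dl y y' i | m] + P[dl y' y'' i | m] :=
        condExp_add (dl_int P hy hy' i) (dl_int P hy' hy'' i) m
      filter_upwards [h2, h3] with ω h4 h5
      rw [h5] at h4
      exact h4
    filter_upwards [ae_all_iff.2 h1] with ω h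
    unfold Mis
    rw [← Finset.sum_add_distrib]
    exact Finset.sum_le_sum fun i _ => h i
  · refine Eventually.of_forall fun ω => ?_
    unfold Mis
    exact Finset.sum_congr rfl fun i _ => by rw [dl_symm]
  · have h1 : ∀ i, ∀ᵐ ω ∂P, 0 ≤ (P[dl y y' i | m]) ω ∧ (P[dl y y' i | m]) ω ≤ 1 := by
      intro i
      have h2 : 0 ≤ᵐ[P] P[dl y y' i | m] :=
        condExp_nonneg (Eventually.of_forall fun ω => dl_nonneg y y' i ω)
      have h3 : P[dl y y' i | m] ≤ᵐ[P] P[fun _ => (1 : ℝ) | m] :=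
        condExp_mono (dl_int P hy hy' i) (integrable_const 1)
          (Eventually.of_forall fun ω => dl_le_one y y' i ω)
      rw [condExp_const hm] at h3
      filter_upwards [h2, h3] with ω h4 h5
      exact ⟨h4, h5⟩
    filter_upwards [ae_all_iff.2 h1] with ω h
    unfold Mis
    refine ⟨Finset.sum_nonneg fun i _ => (h i).1, ?_⟩
    calc ∑ i, (P[dl y y' i | m]) ω ≤ ∑ _i : Fin k, (1 : ℝ) :=
          Finset.sum_le_sum fun i _ => (h i).2
      _ = k := by simp

end Pool.Agent.H69.AG
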